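import Pool.Agent.helper32.QS.Spec

set_option autoImplicit false

namespace QS

open scoped BigOperators commutatorElement

theorem POS_card {G : Type} [Group G] (K₁ K : Subgroup G) (h : K₁ ≤ K) :
    Nat.card K₁ * K₁.relIndex K = Nat.card K := by
  have := Subgroup.relIndex_mul_relIndex (⊥ : Subgroup G) K₁ K bot_le h
  rwa [Subgroup.relIndex_bot_left, Subgroup.relIndex_bot_left] at this

theorem POS_pow {G : Type} [Group G] (e a c : G) (hc : ⁅e, a⁆ = c) (hec : e * c = c * e) (i : ℕ) :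
    e ^ i * a * (e ^ i)⁻¹ = c ^ i * a := by
  have h1 : e * a * e⁻¹ = c * a := by
    rw [← hc, commutatorElement_def]
    group
  have hcom : Commute e c := hec
  induction i with
  | zero => simp
  | succ i ih =>
    have h2 : e ^ (i + 1) * a * (e ^ (i + 1))⁻¹ = e * (e ^ i * a * (e ^ i)⁻¹) * e⁻¹ := by
      rw [pow_succ' e i]
      group
    rw [h2, ih]
    have h3 : e * c ^ i = c ^ i * e := (hcom.pow_right i).eq
    calc e * (c ^ i * a) * e⁻¹ = (e * c ^ i) * a * e⁻¹ := by group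
      _ = c ^ i * (e * a * e⁻¹) := by rw [h3]; group
      _ = c ^ (i + 1) * a := by rw [h1, pow_succ]; group

theorem POS_cent {G : Type} [Group G] [Finite G] (p : ℕ) (hp : p.Prime) (K K₁ : Subgroup G)
    (hK1 : ¬ p ∣ Nat.card K₁) (e : G) (he : e ^ p = 1) (hcomm : ∀ a ∈ K, ⁅e, a⁆ ∈ K₁)
    (hcen : ∀ a ∈ K₁, e * a = a * e) : ∀ a ∈ K, e * a = a * e := by
  intro a ha
  have hc := hcomm a ha
  have hec := hcen _ hc
  have h := POS_pow e a _ rfl hec p
  rw [he, one_mul, inv_one, mul_one] at h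
  have hcp : ⁅e, a⁆ ^ p = 1 := by
    have h' : (1 : G) * a = ⁅e, a⁆ ^ p * a := by rw [one_mul]; exact h
    exact (mul_right_cancel h').symm
  have hc1 : ⁅e, a⁆ = 1 := by
    by_contra hne
    have hF : Fact p.Prime := ⟨hp⟩
    have ho : orderOf ⁅e, a⁆ = p := orderOf_eq_prime hcp hne
    have hd : orderOf (⟨⁅e, a⁆, hc⟩ : K₁) ∣ Nat.card K₁ := orderOf_dvd_natCard _
    rw [Subgroup.orderOf_mk, ho] at hd
    exact hK1 hd
  exact commutatorElement_eq_one_iff_mul_comm.1 hc1

theorem POS_aux (hPSB : PSB_stmt) (hPSI : PSI_stmt) (hKST : KST_stmt)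
    (G : Type) [Group G] [Finite G] (p : ℕ) (hp : p.Prime) : ∀ (n : ℕ) (K E : Subgroup G),
    Nat.card K = n →
    Group.IsSolvable K → ¬ p ∣ Nat.card K → EAb p E → (∀ e ∈ E, ∀ a ∈ K, e * a * e⁻¹ ∈ K) →
    ∀ r : ℕ, Nat.card E = p ^ r →
    0 ≤ (-1 : ℤ) ^ (r + 1) * chi p (K ⊔ E) ∧
    ((∀ e ∈ E, (∀ a ∈ K, e * a = a * e) → e = 1) → 0 < (-1 : ℤ) ^ (r + 1) * chi p (K ⊔ E)) := by
  intro n
  induction n using Nat.strong_induction_on with
  | _ n ih =>
  intro K E hn hsolv hpK hE hKE r hr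
  by_cases hK : K = ⊥
  · subst hK
    rw [bot_sup_eq]
    by_cases hE0 : E = ⊥
    · have hr0 : r = 0 := by
        rw [hE0, Subgroup.card_bot] at hr
        by_contra hne
        have : 1 < p ^ r := Nat.one_lt_pow hne hp.one_lt
        omega
      rw [(hPSB G p E hE).1 hE0, hr0]
      norm_num
    · rw [(hPSB G p E hE).2 hE0]
      refine ⟨by simp, ?_⟩
      intro h
      exfalso
      apply hE0
      rw [eq_bot_iff]
      intro e he
      have := h e he (fun a ha => by
        rw [Subgroup.mem_bot] at ha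
        rw [ha]; simp)
      rw [this]
      exact Subgroup.one_mem _
  · obtain ⟨K₁, H, hK1, hHE, hidx, h1, h2, h3, h4⟩ := hKST G p hp K E hsolv hK hpK hE hKE
    have hle : K₁ ≤ K := hK1.le
    have hcard : K₁.relIndex K * Nat.card K₁ = Nat.card K := by
      rw [mul_comm]
      exact POS_card K₁ K hle
    have hdvd : Nat.card K₁ ∣ Nat.card K := ⟨K₁.relIndex K, by rw [mul_comm]; exact hcard.symm⟩
    have hpK1 : ¬ p ∣ Nat.card K₁ := fun h => hpK (h.trans hdvd)
    have hposK1 : 0 < Nat.card K₁ := Nat.card_pos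
    have hposK : 0 < Nat.card K := Nat.card_pos
    have hm0 : K₁.relIndex K ≠ 0 := by
      intro h0
      rw [h0, zero_mul] at hcard
      omega
    have hm1 : K₁.relIndex K ≠ 1 := by
      intro h0
      exact hK1.not_ge (Subgroup.relIndex_eq_one.1 h0)
    have hm2 : 2 ≤ K₁.relIndex K := by omega
    have hlt : Nat.card K₁ < n := by
      rw [← hn, ← hcard]
      calc Nat.card K₁ < 2 * Nat.card K₁ := by omega
        _ ≤ K₁.relIndex K * Nat.card K₁ := Nat.mul_le_mul_right _ hm2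
    have hsolv1 : Group.IsSolvable K₁ := by
      have := hsolv
      exact Group.isSolvable_of_isSolvable_injective (f := Subgroup.inclusion hle)
        (Subgroup.inclusion_injective hle)
    have hEH : EAb p H := ⟨fun x hx y hy => hE.1 x (hHE hx) y (hHE hy), fun x hx => hE.2 x (hHE hx)⟩
    have hstep := hPSI G p hp K K₁ E H hle hpK hE hHE hKE h1 h2 h3 h4
    have hstar : ∀ e ∈ H, (∀ a ∈ K₁, e * a = a * e) → ∀ a ∈ K, e * a = a * e := fun e he hcen =>
      POS_cent p hp K K₁ hpK1 e (hE.2 e (hHE he)) (h3 e he) hcen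
    have ih1 := ih (Nat.card K₁) hlt K₁ E rfl hsolv1 hpK1 hE h1 r hr
    rcases hidx with hidx | hidx
    · have hHE' : H = E := le_antisymm hHE (Subgroup.relIndex_eq_one.1 hidx)
      subst hHE'
      have hchi : chi p (K ⊔ H) = chi p (K₁ ⊔ H) := by linarith
      rw [hchi]
      refine ⟨ih1.1, fun h => ih1.2 (fun e he hcen => h e he (hstar e he hcen))⟩
    · have hcH : Nat.card H * p = p ^ r := by
        rw [← hr, ← hidx]
        exact POS_card H E hHE
      have hr1 : r ≠ 0 := by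
        intro h0
        rw [h0, pow_zero] at hcH
        have h5 : p ∣ 1 := ⟨Nat.card H, by rw [mul_comm]; exact hcH.symm⟩
        exact hp.one_lt.ne' (Nat.dvd_one.1 h5)
      obtain ⟨s, rfl⟩ := Nat.exists_eq_succ_of_ne_zero hr1
      have hcH' : Nat.card H = p ^ s := by
        rw [Nat.succ_eq_add_one, pow_succ] at hcH
        exact Nat.eq_of_mul_eq_mul_right hp.pos hcH
      have ih2 := ih (Nat.card K₁) hlt K₁ H rfl hsolv1 hpK1 hEH (fun e he a ha => h1 e (hHE he) a ha)
        s hcH'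
      have hkey : (-1 : ℤ) ^ (s.succ + 1) * chi p (K ⊔ E) =
          (K₁.relIndex K : ℤ) * ((-1 : ℤ) ^ (s.succ + 1) * chi p (K₁ ⊔ E)) +
            ((K₁.relIndex K : ℤ) - 1) * ((-1 : ℤ) ^ (s + 1) * chi p (K₁ ⊔ H)) := by
        have h5 : chi p (K ⊔ E) = (K₁.relIndex K : ℤ) * chi p (K₁ ⊔ E) -
            ((K₁.relIndex K : ℤ) - 1) * chi p (K₁ ⊔ H) := by linarith
        rw [h5, Nat.succ_eq_add_one, pow_succ (-1 : ℤ) (s + 1)]
        ring
      rw [hkey]
      have hmz : (2 : ℤ) ≤ (K₁.relIndex K : ℤ) := by exact_mod_cast hm2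
      have hA : 0 ≤ (K₁.relIndex K : ℤ) * ((-1 : ℤ) ^ (s.succ + 1) * chi p (K₁ ⊔ E)) :=
        mul_nonneg (by linarith) ih1.1
      refine ⟨add_nonneg hA (mul_nonneg (by linarith) ih2.1), fun h => ?_⟩
      have hB := ih2.2 (fun e he hcen => h e (hHE he) (hstar e he hcen))
      have hB' : 0 < ((K₁.relIndex K : ℤ) - 1) * ((-1 : ℤ) ^ (s + 1) * chi p (K₁ ⊔ H)) :=
        mul_pos (by linarith) hB
      linarith

/-- POS. Sign of the Euler characteristic of `K E`. -/
theorem POS (hPSB : PSB_stmt) (hPSI : PSI_stmt) (hKST : KST_stmt) : POS_stmt :=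
  fun G _ _ p hp K E hs hpK hE hKE r hr => POS_aux hPSB hPSI hKST G p hp (Nat.card K) K E rfl hs hpK
    hE hKE r hr

end QS
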